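import Pool.Agent.H83.Iv3

set_option autoImplicit false

namespace Pool.Agent.Results.MP_b02441_al.Commutative

/-- Nonempty words over the alphabet indexed by `ℕ`. -/
abbrev W := FreeSemigroup ℕ

/-- The congruence on words in `n` letters generated by the substitution instances of `E`. -/
def con (E : Set (W × W)) (n : ℕ) : Con (FreeSemigroup (Fin n)) :=
  conGen fun a b => ∃ p ∈ E, ∃ σ : W →ₙ* FreeSemigroup (Fin n), a = σ p.1 ∧ b = σ p.2

/-- The free semigroup of rank `n` of the variety defined by `E`. -/
abbrev F (E : Set (W × W)) (n : ℕ) : Type := (con E n).Quotient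

/-- `S` satisfies the identical inclusion of `u` in `V`. -/
def Sat (S : Type) [Semigroup S] (u : W) (V : Set W) : Prop :=
  ∀ φ : W →ₙ* S, ∃ v ∈ V, φ u = φ v

/-- `S` and `T` satisfy the same identical inclusions. -/
def Equivalent (S T : Type) [Semigroup S] [Semigroup T] : Prop :=
  ∀ (u : W) (V : Set W), V.Nonempty → (Sat S u V ↔ Sat T u V)

/-- The finitely generated free semigroups of the variety defined by `E` are separated. -/
def Separated (E : Set (W × W)) : Prop :=
  ∀ m n : ℕ, 1 ≤ m → 1 ≤ n → m ≠ n → ¬ Equivalent (F E m) (F E n)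

/-- The list of letters of a word. -/
def tl {α : Type} (w : FreeSemigroup α) : List α := w.head :: w.tail

/-- For some `c`, a word is a zero element of `F E n` exactly when it has at least `c` letters. -/
def Exc (E : Set (W × W)) : Prop :=
  ∃ c : ℕ, ∀ (n : ℕ) (u : FreeSemigroup (Fin n)),
    (∀ t : F E n, (u : F E n) * t = u) ↔ c ≤ (tl u).length

theorem result (E : Set (W × W)) (hc : ∀ n (a b : F E n), a * b = b * a) :
    Separated E ↔ (∃ p ∈ E, ¬ (tl p.1).Perm (tl p.2)) ∧ ¬ Exc E :=
  Pool.Agent.H83.Iv3.comm_full E hc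

end Pool.Agent.Results.MP_b02441_al.Commutative
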