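import Pool.Agent.H83.Iv3

set_option autoImplicit false

namespace Pool.Agent.Results.MP_b02441_al.Overcommutative

/-- Nonempty words over the alphabet indexed by `ℕ`. -/
abbrev W := FreeSemigroup ℕ

/-- The congruence on words in `n` letters generated by the substitution instances of `E`. -/
def con (E : Set (W × W)) (n : ℕ) : Con (FreeSemigroup (Fin n)) :=
  conGen fun a b => ∃ p ∈ E, ∃ σ : W →ₙ* FreeSemigroup (Fin n), a = σ p.1 ∧ b = σ p.2

/-- The free semigroup of rank `n` of the variety defined by `E`. -/
abbrev F (E : Set (W × W)) (n : ℕ) : Type := (con E n).Quotient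

/-- `S` satisfies the identical inclusion of `u` in `V`. -/
def Sat (S : Type) [Semigroup S] (u : W) (V : Set W) : Prop :=
  ∀ φ : W →ₙ* S, ∃ v ∈ V, φ u = φ v

/-- `S` and `T` satisfy the same identical inclusions. -/
def Equivalent (S T : Type) [Semigroup S] [Semigroup T] : Prop :=
  ∀ (u : W) (V : Set W), V.Nonempty → (Sat S u V ↔ Sat T u V)

/-- The finitely generated free semigroups of the variety defined by `E` are separated. -/
def Separated (E : Set (W × W)) : Prop :=
  ∀ m n : ℕ, 1 ≤ m → 1 ≤ n → m ≠ n → ¬ Equivalent (F E m) (F E n)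

/-- The list of letters of a word. -/
def tl {α : Type} (w : FreeSemigroup α) : List α := w.head :: w.tail

theorem result :
    ∃ E : Set (W × W), (∀ p ∈ E, (tl p.1).Perm (tl p.2)) ∧ Separated E :=
  ⟨Pool.Agent.H83.Iv1.REP, fun _ hp => hp.2, Pool.Agent.H83.Iv1.rep_sep⟩

end Pool.Agent.Results.MP_b02441_al.Overcommutative
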